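import Pool.Agent.N748.HM.Stm

set_option autoImplicit false

/-!
# HM/NRM: the normalising constants (helper61)
-/

namespace Pool.Agent.V5helper61.HM

open Finset Filter MeasureTheory MonoidAlgebra Topology Complex
open Pool.Agent.Y755 Pool.Agent.W184.NZ
open Pool.Agent.H306R2 (aF aF_pos)
open Pool.Agent.N748.GC Pool.Agent.N748.HM
open Pool.Agent.Y753.NL (Az near_size Az_ip Az_Bd Az_mem Az_ip_ge)

/-- the norm of the polynomial over the small primes is close to the normalising constant -/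
theorem E0_ip {α : ℝ} {z : ℕ} {A0 : P1} {m : ℝ} (hm : Bd1 m A0) {ε : ℝ} (hε : 0 < ε) (hε1 : ε ≤ 1 / 20)
    (hPA : ∀ s : ℂ, 1 / 2 ≤ s.re → 1 - ε ≤ ‖es s (Pz z)‖ ^ (2 * α) * ‖es s A0‖ ^ 2 ∧
      ‖es s (Pz z)‖ ^ (2 * α) * ‖es s A0‖ ^ 2 ≤ 1 + ε) :
    ∃ δ2 : ℝ, 0 < δ2 ∧ ∀ δ : ℝ, 0 ≤ δ → δ ≤ δ2 →
      (1 - 2 * ε) * E0 α (Sm z) ≤ ip δ A0 A0 ∧ ip δ A0 A0 ≤ (1 + 3 * ε) * E0 α (Sm z) := by
  obtain ⟨δ2, hδ2, hnear⟩ := Ph_near α z hε
  refine ⟨δ2, hδ2, fun δ hδ hδ2' => ?_⟩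
  set B := ip δ A0 A0 with hB
  set E := E0 α (Sm z) with hE
  have hE0 : 0 < E := QC.E0_pos α (QC.Sm_prime z)
  have hmz0 : ∀ u, 0 < mz α z u := fun u => QC.M0_pos α (QC.Sm_prime z) _
  -- pointwise
  have hpt : ∀ u : ℝ, (1 - 2 * ε) * (E * mz α z u) ≤ ‖es (1 / 2 + δ + u * I) A0‖ ^ 2 ∧
      ‖es (1 / 2 + δ + u * I) A0‖ ^ 2 ≤ (1 + 3 * ε) * (E * mz α z u) := by
    intro u
    have hre : (1:ℝ) / 2 ≤ (1 / 2 + (δ:ℂ) + u * I).re := by simp; linarith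
    obtain ⟨h1, h2⟩ := hPA _ hre
    rw [← Ph_pt] at h1 h2
    have hp := Ph_pos z hδ (pt (Sm z) u)
    set P := Ph z δ (pt (Sm z) u) with hP
    set a := ‖es (1 / 2 + δ + u * I) A0‖ ^ 2 with ha
    have hq : E * mz α z u = Ph z 0 (pt (Sm z) u) ^ (-(2 * α)) := by
      unfold mz
      rw [M0_Ph, ← hE, mul_div_cancel₀ _ hE0.ne']
    have h3 := abs_le.mp (hnear δ hδ hδ2' (pt (Sm z) u))
    rw [← hq, ← hP] at h3
    set q := E * mz α z u with hqd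
    have hq0 : 0 < q := mul_pos hE0 (hmz0 u)
    have hPi : P ^ (-(2 * α)) * P ^ (2 * α) = 1 := by
      rw [← Real.rpow_add hp]; simp
    have hPp : 0 < P ^ (-(2 * α)) := Real.rpow_pos_of_pos hp _
    have h4 : (1 - ε) * P ^ (-(2 * α)) ≤ a := by
      calc (1 - ε) * P ^ (-(2 * α)) ≤ (P ^ (2 * α) * a) * P ^ (-(2 * α)) := mul_le_mul_of_nonneg_right h1 hPp.le
        _ = (P ^ (-(2 * α)) * P ^ (2 * α)) * a := by ring
        _ = a := by rw [hPi, one_mul]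
    have h5 : a ≤ (1 + ε) * P ^ (-(2 * α)) := by
      calc a = (P ^ (-(2 * α)) * P ^ (2 * α)) * a := by rw [hPi, one_mul]
        _ = (P ^ (2 * α) * a) * P ^ (-(2 * α)) := by ring
        _ ≤ (1 + ε) * P ^ (-(2 * α)) := mul_le_mul_of_nonneg_right h2 hPp.le
    have h6 : 0 ≤ ε ^ 2 * q := by positivity
    constructor
    · nlinarith
    · nlinarith
  -- the mean values
  have hm1 := mean_sq A0 hm hδ
  have hm2 : Tendsto (fun T : ℝ => (∫ t in (0:ℝ)..T, mz α z t) / T) atTop (𝓝 1) := by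
    rw [Metric.tendsto_atTop]
    intro e he
    obtain ⟨H0, hH0, h⟩ := ERG.main (Sm z) (QC.Sm_prime z) (M0 α (Sm z)) (QC.M0_cont α (QC.Sm_prime z)) (e / 2) (by linarith)
    refine ⟨H0, fun T hT => ?_⟩
    have h1 := h T hT 0
    rw [zero_add, QC.M0_int α (QC.Sm_prime z)] at h1
    rw [Real.dist_eq]
    show |(∫ t in (0:ℝ)..T, M0 α (Sm z) (pt (Sm z) t)) / T - 1| < e
    linarith
  have hcA : Continuous fun t : ℝ => ‖es (1 / 2 + δ + t * I) A0‖ ^ 2 := by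
    have h1 : ∀ n ∈ (cx A0).coeff.support, n ≠ 0 := by
      intro n hn
      rw [cx_supp] at hn
      exact (hm n hn).1
    have h2 := ((ec_cont h1 (1 / 2 + δ)).norm.pow 2)
    refine h2.congr fun t => ?_
    show ‖ec (1 / 2 + δ + t * I) (cx A0)‖ ^ 2 = _
    rw [ec_cx]
  have hcm := QC.mz_cont α z
  constructor
  · have h1 : Tendsto (fun T : ℝ => (1 - 2 * ε) * E * ((∫ t in (0:ℝ)..T, mz α z t) / T)) atTop (𝓝 ((1 - 2 * ε) * E * 1)) :=
      hm2.const_mul _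
    rw [mul_one] at h1
    refine le_of_tendsto_of_tendsto h1 hm1 ?_
    filter_upwards [eventually_gt_atTop 0] with T hT
    rw [← mul_div_assoc, ← intervalIntegral.integral_const_mul]
    refine div_le_div_of_nonneg_right ?_ hT.le
    refine intervalIntegral.integral_mono_on hT.le ((hcm.const_mul _).intervalIntegrable _ _)
      (hcA.intervalIntegrable _ _) fun t _ => ?_
    rw [mul_assoc]; exact (hpt t).1
  · have h1 : Tendsto (fun T : ℝ => (1 + 3 * ε) * E * ((∫ t in (0:ℝ)..T, mz α z t) / T)) atTop (𝓝 ((1 + 3 * ε) * E * 1)) :=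
      hm2.const_mul _
    rw [mul_one] at h1
    refine le_of_tendsto_of_tendsto hm1 h1 ?_
    filter_upwards [eventually_gt_atTop 0] with T hT
    rw [← mul_div_assoc, ← intervalIntegral.integral_const_mul]
    refine div_le_div_of_nonneg_right ?_ hT.le
    refine intervalIntegral.integral_mono_on hT.le (hcA.intervalIntegrable _ _)
      ((hcm.const_mul _).intervalIntegrable _ _) fun t _ => ?_
    rw [mul_assoc]; exact (hpt t).2

/-- the product of the local factors at `δ` and the normalising constant -/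
lemma Ed_E0 {α : ℝ} (h0 : 0 < α) {ε : ℝ} (hε : 0 < ε) (hε1 : ε ≤ 1 / 20) (z : ℕ) :
    ∃ δ2 : ℝ, 0 < δ2 ∧ ∀ δ : ℝ, 0 ≤ δ → δ ≤ δ2 →
      (1 - 2 * ε) * E0 α (Sm z) ≤ ∏ p ∈ S0 z, Ed α δ p ∧ (1 - ε) * ∏ p ∈ S0 z, Ed α δ p ≤ (1 + 3 * ε) * E0 α (Sm z) := by
  obtain ⟨K1, hK1⟩ := near_size h0 (z := z) hε (by linarith)
  obtain ⟨K2, hK2⟩ := Az_ip (α := α) z hε
  obtain ⟨ρ, hρ, hsize⟩ := hK1 (max K1 K2) (le_max_left _ _)
  obtain ⟨m0, hA'⟩ := Az_Bd α (max K1 K2) z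
  obtain ⟨δ2, hδ2, h⟩ := E0_ip hA' hε hε1 (hsize α (by rw [sub_self, abs_zero]; exact hρ.le))
  refine ⟨δ2, hδ2, fun δ hδ hδ' => ?_⟩
  obtain ⟨h1, h2⟩ := h δ hδ hδ'
  obtain ⟨h3, h4⟩ := hK2 _ (le_max_right _ _) δ hδ
  exact ⟨h1.trans h4, h3.trans h2⟩

theorem t_NRM : S_NRM := by
  intro α hα ε0 hε0
  obtain ⟨ε, hε, hε1, hε2⟩ : ∃ ε : ℝ, 0 < ε ∧ ε ≤ 1 / 20 ∧ 20 * ε ≤ ε0 :=
    ⟨min (1 / 20) (ε0 / 20), by positivity, min_le_left _ _, by have := min_le_right (1 / 20 : ℝ) (ε0 / 20); linarith⟩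
  obtain ⟨z0, x0, _, hcmp⟩ := cmp hα hε
  obtain ⟨δ1, hδ1, hDD⟩ := DD_unif hα hε
  refine ⟨max z0 1000, fun z hz => ?_⟩
  have hz0 : z0 ≤ z := (le_max_left _ _).trans hz
  have hz1 : 1000 ≤ z := (le_max_right _ _).trans hz
  obtain ⟨δ2, hδ2, hE⟩ := Ed_E0 hα hε hε1 z
  refine ⟨x0, min δ1 δ2, by positivity, fun δ hδ hδ' y J hzy hJ hx => ?_⟩
  obtain ⟨c1, c2⟩ := hcmp z hz0 hz1 y δ hzy hδ hx J hJ
  have hD := hDD δ hδ (hδ'.trans (min_le_left _ _))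
  obtain ⟨e1, e2⟩ := hE δ hδ.le (hδ'.trans (min_le_right _ _))
  rw [VB_eq, aa_eq]
  have haF := aF_pos hα
  have hDD0 := DD_ge_one hα hδ
  have hE0 : 0 < E0 α (Sm z) := QC.E0_pos α (QC.Sm_prime z)
  set a := aF α with ha
  set D := DD α δ with hDdef
  set E := E0 α (Sm z) with hEdef
  set P := ∏ p ∈ S0 z, Ed α δ p with hP
  set V := Real.exp (α ^ 2 * Vd δ z y J) with hV
  have hV0 : 0 < V := Real.exp_pos _
  set w := (2 * δ) ^ (α ^ 2) with hw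
  have hw0 : 0 < w := Real.rpow_pos_of_pos (by linarith) _
  obtain ⟨d1, d2⟩ := abs_le.mp hD
  have g1 : 1 - ε ≤ Real.exp (-ε) := by have := Real.add_one_le_exp (-ε); linarith
  have g2 : Real.exp ε ≤ 1 + 2 * ε := by
    have := Real.abs_exp_sub_one_le (x := ε) (by rw [abs_of_pos hε]; linarith)
    rw [abs_of_pos hε] at this
    have := (abs_le.mp this).2
    linarith
  have hD0 : 0 < D := by linarith
  -- upper bound
  have u1 : P * V ≤ (1 + 2 * ε) * D := c2.trans (mul_le_mul_of_nonneg_right g2 hD0.le)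
  have u2 : (1 - 2 * ε) * (E * V) ≤ (1 + 2 * ε) * D := by
    calc (1 - 2 * ε) * (E * V) = ((1 - 2 * ε) * E) * V := by ring
      _ ≤ P * V := mul_le_mul_of_nonneg_right e1 hV0.le
      _ ≤ _ := u1
  have u3 : (1 - 2 * ε) * (w * (E * V)) ≤ (1 + 2 * ε) * ((1 + ε) * a) := by
    calc (1 - 2 * ε) * (w * (E * V)) = w * ((1 - 2 * ε) * (E * V)) := by ring
      _ ≤ w * ((1 + 2 * ε) * D) := mul_le_mul_of_nonneg_left u2 hw0.le
      _ = (1 + 2 * ε) * (w * D) := by ring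
      _ ≤ _ := mul_le_mul_of_nonneg_left (by linarith) (by linarith)
  -- lower bound
  have l1 : (1 - ε) * D ≤ P * V := (mul_le_mul_of_nonneg_right g1 hD0.le).trans c1
  have l2 : (1 - ε) * ((1 - ε) * D) ≤ (1 + 3 * ε) * (E * V) := by
    calc (1 - ε) * ((1 - ε) * D) ≤ (1 - ε) * (P * V) := mul_le_mul_of_nonneg_left l1 (by linarith)
      _ = ((1 - ε) * P) * V := by ring
      _ ≤ ((1 + 3 * ε) * E) * V := mul_le_mul_of_nonneg_right e2 hV0.le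
      _ = _ := by ring
  have l3 : (1 - ε) ^ 3 * a ≤ (1 + 3 * ε) * (w * (E * V)) := by
    calc (1 - ε) ^ 3 * a = (1 - ε) ^ 2 * ((1 - ε) * a) := by ring
      _ ≤ (1 - ε) ^ 2 * (w * D) := mul_le_mul_of_nonneg_left (by linarith) (sq_nonneg _)
      _ = w * ((1 - ε) * ((1 - ε) * D)) := by ring
      _ ≤ w * ((1 + 3 * ε) * (E * V)) := mul_le_mul_of_nonneg_left l2 hw0.le
      _ = _ := by ring
  have e3 : w / a * (E * V) = w * (E * V) / a := by ring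
  have hX : w * (E * V) = (w * (E * V) / a) * a := by field_simp
  rw [e3]
  set X := w * (E * V) / a with hXd
  rw [hX] at u3 l3
  have u4 : (1 - 2 * ε) * X ≤ (1 + 2 * ε) * (1 + ε) := by
    refine le_of_mul_le_mul_right ?_ haF
    linarith
  have l4 : (1 - ε) ^ 3 ≤ (1 + 3 * ε) * X := by
    refine le_of_mul_le_mul_right ?_ haF
    linarith
  have hεε : ε ^ 2 ≤ ε / 20 := by nlinarith
  have hεεε : 0 ≤ ε ^ 2 * (1 - ε) := mul_nonneg (sq_nonneg _) (by linarith)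
  refine (abs_le.mpr ⟨?_, ?_⟩).trans hε2
  · -- 1 - 20 ε ≤ X
    by_contra hcon
    push Not at hcon
    have h1 : X < 1 - 20 * ε := by linarith
    have h2 : (1 + 3 * ε) * X < (1 + 3 * ε) * (1 - 20 * ε) := mul_lt_mul_of_pos_left h1 (by linarith)
    nlinarith [sq_nonneg ε]
  · by_contra hcon
    push Not at hcon
    have h1 : 1 + 20 * ε < X := by linarith
    have h2 : (1 - 2 * ε) * (1 + 20 * ε) < (1 - 2 * ε) * X := mul_lt_mul_of_pos_left h1 (by linarith)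
    nlinarith [sq_nonneg ε]

end Pool.Agent.V5helper61.HM
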