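import Pool.Agent.V5helper61.HM.SQ1b

set_option autoImplicit false

/-!
# HM/SQ1: the factor of the squares (helper61), the recursion over the primes
-/

namespace Pool.Agent.V5helper61.HM.SQ1

open Finset MonoidAlgebra Complex
open Pool.Agent.N748.GC
open scoped ComplexOrder

noncomputable def FS (M : ℕ) (a : ℝ) (S : Finset ℕ) : PC := ∏ p ∈ S, Fl M a p

noncomputable def GS (M : ℕ) (a : ℝ) (S : Finset ℕ) : PC := ∏ p ∈ S, Gl M a p

lemma Su_one (I : Finset ℕ) : BLK.Su (Mo I) 1 := by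
  rw [one_def]
  exact BLK.Su.single ⟨one_ne_zero, fun p hp hd => absurd (Nat.dvd_one.1 hd) hp.one_lt.ne'⟩ _

lemma Mo_pow {p : ℕ} (hp : p.Prime) (k : ℕ) : Mo {p} (p ^ k) :=
  ⟨pow_ne_zero _ hp.ne_zero, fun q hq hd => by
    rw [mem_singleton]
    exact (Nat.prime_dvd_prime_iff_eq hq hp).1 (hq.dvd_of_dvd_pow hd)⟩

lemma Su_NKc {I : Finset ℕ} {x : PC} (hx : BLK.Su (Mo I) x) (K : ℕ) (a : ℝ) : BLK.Su (Mo I) (NKc K a x) := by
  unfold NKc
  exact BLK.Su.sum fun k _ => BLK.Su.smul (BLK.Su_Mo_pow hx k) _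

lemma Su_Gl {p : ℕ} (hp : p.Prime) (M : ℕ) (a : ℝ) : BLK.Su (Mo {p}) (Gl M a p) := by
  have h := Mo_pow hp 1
  rw [pow_one] at h
  exact Su_NKc (BLK.Su.single h _) M a

lemma Su_Ql {p : ℕ} (hp : p.Prime) (M : ℕ) (a : ℝ) : BLK.Su (Mo {p}) (Ql M a p) :=
  Su_NKc (BLK.Su.single (Mo_pow hp 2) _) M a

lemma Su_Fl {p : ℕ} (hp : p.Prime) (M : ℕ) (a : ℝ) : BLK.Su (Mo {p}) (Fl M a p) :=
  (Su_Gl hp M a).mul (Su_Ql hp M a) fun _ _ h1 h2 => BLK.Mo.mul h1 h2

lemma Su_prod (S : Finset ℕ) (f : ℕ → PC) (hf : ∀ p ∈ S, BLK.Su (Mo {p}) (f p)) :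
    BLK.Su (Mo S) (∏ p ∈ S, f p) := by
  classical
  induction S using Finset.induction_on with
  | empty => rw [prod_empty]; exact Su_one _
  | insert q S hq ih =>
    rw [prod_insert hq]
    refine (hf q (mem_insert_self _ _)).mul (ih fun p hp => hf p (mem_insert_of_mem hp)) fun m n hm hn => ?_
    refine BLK.Mo.mul (NNL.Mo_mono ?_ hm) (NNL.Mo_mono (subset_insert _ _) hn)
    intro x hx
    rw [mem_singleton] at hx
    rw [hx]
    exact mem_insert_self _ _

lemma Su.add {A : ℕ → Prop} {f g : PC} (hf : BLK.Su A f) (hg : BLK.Su A g) : BLK.Su A (f + g) := by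
  intro n hn
  rw [coeff_add, Finsupp.add_apply] at hn
  by_cases h : f.coeff n = 0
  · rw [h, zero_add] at hn
    exact hg n hn
  · exact hf n h

lemma Su.sub {A : ℕ → Prop} {f g : PC} (hf : BLK.Su A f) (hg : BLK.Su A g) : BLK.Su A (f - g) := by
  intro n hn
  rw [coeff_sub, Finsupp.sub_apply] at hn
  by_cases h : f.coeff n = 0
  · rw [h, zero_sub] at hn
    exact hg n fun h0 => hn (by rw [h0, neg_zero])
  · exact hf n h

lemma nn_add {A B : ℕ → Prop} {f g : PC} (hf : BLK.Su A f) (hg : BLK.Su B g) (h : ∀ n, A n → B n → False)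
    (δ : ℝ) : nn δ (f + g) = nn δ f + nn δ g := by
  refine NN.nn_add_of_disjoint δ ?_
  rw [Finset.disjoint_left]
  intro n h1 h2
  exact h n (hf n (Finsupp.mem_support_iff.1 h1)) (hg n (Finsupp.mem_support_iff.1 h2))

lemma nn_mul {I J : Finset ℕ} (hIJ : Disjoint I J) {f g : PC} (hf : BLK.Su (Mo I) f) (hg : BLK.Su (Mo J) g)
    (δ : ℝ) : nn δ (f * g) = nn δ f * nn δ g :=
  NN.main δ I J hIJ f g (fun n hn => hf n (Finsupp.mem_support_iff.1 hn))
    (fun n hn => hg n (Finsupp.mem_support_iff.1 hn))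

lemma Su_Ll (a : ℝ) (p : ℕ) : BLK.Su (fun n => n = 1 ∨ n = p) (Ll a p) :=
  Su.add (BLK.Su.single (Or.inl rfl) _) (BLK.Su.single (Or.inr rfl) _)

lemma Su_Rl (M : ℕ) (a : ℝ) (p : ℕ) : BLK.Su (fun n => p ^ 2 ∣ n) (Rl M a p) := by
  unfold Rl
  refine BLK.Su.sum fun m hm => BLK.Su.single ?_ _
  refine pow_dvd_pow p ?_
  rw [mem_erase, mem_erase] at hm
  obtain ⟨h1, h2, _⟩ := hm
  have h3 : ¬ (m.1 = 1 ∧ m.2 = 0) := fun h => h1 (Prod.ext h.1 h.2)
  have h4 : ¬ (m.1 = 0 ∧ m.2 = 0) := fun h => h2 (Prod.ext h.1 h.2)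
  omega

lemma nn_Ll (δ : ℝ) {p : ℕ} (hp : p.Prime) (a : ℝ) : nn δ (Ll a p) = 1 + a ^ 2 * wd δ p := by
  unfold Ll
  rw [nn_add (A := fun n => n = 1) (B := fun n => n = p) (BLK.Su.single (A := fun n => n = 1) rfl _)
    (BLK.Su.single (A := fun n => n = p) rfl _) (fun n h1 h2 => hp.one_lt.ne' (h2.symm.trans h1)), NN.nn_single, NN.nn_single, BLK.wd_one, norm_one,
    Complex.norm_real, Real.norm_eq_abs, sq_abs]
  ring

lemma Su_Ll_Mo {p : ℕ} (hp : p.Prime) (a : ℝ) : BLK.Su (Mo {p}) (Ll a p) := by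
  refine (Su_Ll a p).mono fun n hn => ?_
  rcases hn with rfl | rfl
  · have := Mo_pow hp 0
    rwa [pow_zero] at this
  · have := Mo_pow hp 1
    rwa [pow_one] at this

lemma Su_Rl_Mo {p : ℕ} (hp : p.Prime) (M : ℕ) (a : ℝ) : BLK.Su (Mo {p}) (Rl M a p) := by
  unfold Rl
  exact BLK.Su.sum fun m _ => BLK.Su.single (Mo_pow hp _) _

lemma nn_Fl {δ : ℝ} (hδ : 0 ≤ δ) {p : ℕ} (hp : p.Prime) {M : ℕ} (hM : 1 ≤ M) {a : ℝ} (ha : 0 ≤ a) :
    nn δ (Fl M a p) ≤ Real.exp (a ^ 2 * wd δ p + Real.exp (3 * a) * wd δ p ^ 2) := by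
  rw [Fl_split hM, nn_add (Su_Ll a p) (Su_Rl M a p), nn_Ll δ hp]
  · have h1 := nn_Rl hδ ha M p
    have h2 := Real.add_one_le_exp (a ^ 2 * wd δ p + Real.exp (3 * a) * wd δ p ^ 2)
    linarith
  · intro n h1 h2
    rcases h1 with rfl | rfl
    · have := Nat.le_of_dvd one_pos h2
      have := hp.two_le
      nlinarith
    · have := Nat.le_of_dvd hp.pos h2
      have := hp.two_le
      nlinarith

lemma nn_FS {δ : ℝ} (hδ : 0 ≤ δ) {M : ℕ} (hM : 1 ≤ M) {a : ℝ} (ha : 0 ≤ a) (S : Finset ℕ) :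
    (∀ p ∈ S, p.Prime) →
    nn δ (FS M a S) ≤ Real.exp (a ^ 2 * (∑ p ∈ S, wd δ p) + Real.exp (3 * a) * (∑ p ∈ S, wd δ p ^ 2)) := by
  classical
  induction S using Finset.induction_on with
  | empty =>
    intro _
    unfold FS
    rw [prod_empty, BLK.nn_one]
    simp
  | insert q S hq ih =>
    intro hS
    have hq1 := hS q (mem_insert_self _ _)
    have hS1 : ∀ p ∈ S, p.Prime := fun p hp => hS p (mem_insert_of_mem hp)
    have e : FS M a (insert q S) = Fl M a q * FS M a S := by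
      unfold FS
      rw [prod_insert hq]
    have hSF : BLK.Su (Mo S) (FS M a S) := Su_prod S _ fun p hp => Su_Fl (hS1 p hp) M a
    rw [e, nn_mul (I := {q}) (J := S) (Finset.disjoint_singleton_left.2 hq) (Su_Fl hq1 M a) hSF,
      sum_insert hq, sum_insert hq]
    have h1 := nn_Fl hδ hq1 hM ha
    have h2 := ih hS1
    refine (mul_le_mul h1 h2 (BLK.nn_nonneg _ _) (Real.exp_pos _).le).trans (le_of_eq ?_)
    rw [← Real.exp_add]
    congr 1
    ring

lemma GS_le {M : ℕ} {a : ℝ} (ha : 0 ≤ a) (S : Finset ℕ) : Lq (GS M a S) (FS M a S) := by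
  unfold GS FS
  refine Lq.prod fun p _ => ?_
  have h := (Lq.refl (Gl_ps ha M p)).mul (Ql_ge_one ha M p)
  rwa [mul_one] at h

lemma key {δ : ℝ} (hδ : 0 ≤ δ) {M : ℕ} (hM : 1 ≤ M) {a : ℝ} (ha : 0 ≤ a) (S : Finset ℕ) :
    (∀ p ∈ S, p.Prime) →
    nn δ (FS M a S - GS M a S) ≤
      Real.exp (a ^ 2 * (∑ p ∈ S, wd δ p)) * (Real.exp (Real.exp (3 * a) * (∑ p ∈ S, wd δ p ^ 2)) - 1) := by
  classical
  induction S using Finset.induction_on with
  | empty =>
    intro _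
    unfold FS GS
    rw [prod_empty, prod_empty, sub_self, NN.nn_zero]
    simp
  | insert q S hq ih =>
    intro hS
    have hq1 := hS q (mem_insert_self _ _)
    have hS1 : ∀ p ∈ S, p.Prime := fun p hp => hS p (mem_insert_of_mem hp)
    have eF : FS M a (insert q S) = Fl M a q * FS M a S := by
      unfold FS
      rw [prod_insert hq]
    have eG : GS M a (insert q S) = Gl M a q * GS M a S := by
      unfold GS
      rw [prod_insert hq]
    have hdom : Lq (FS M a (insert q S) - GS M a (insert q S))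
        ((FS M a S - GS M a S) * Ll a q + FS M a S * Rl M a q) := by
      refine ⟨(GS_le ha (insert q S)).2, ?_⟩
      have e : (FS M a S - GS M a S) * Ll a q + FS M a S * Rl M a q -
          (FS M a (insert q S) - GS M a (insert q S)) = GS M a S * (Gl M a q - Ll a q) := by
        rw [eF, eG, Fl_split hM]
        ring
      rw [e]
      exact (GS_le ha S).1.mul (Gl_split hM ha q)
    have hSF : BLK.Su (Mo S) (FS M a S) := Su_prod S _ fun p hp => Su_Fl (hS1 p hp) M a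
    have hSG : BLK.Su (Mo S) (GS M a S) := Su_prod S _ fun p hp => Su_Gl (hS1 p hp) M a
    have hSD : BLK.Su (Mo S) (FS M a S - GS M a S) := Su.sub hSF hSG
    have hdis : Disjoint S {q} := Finset.disjoint_singleton_right.2 hq
    have h1 : nn δ ((FS M a S - GS M a S) * Ll a q + FS M a S * Rl M a q) =
        nn δ (FS M a S - GS M a S) * (1 + a ^ 2 * wd δ q) + nn δ (FS M a S) * nn δ (Rl M a q) := by
      rw [nn_add (A := fun n => ¬ q ^ 2 ∣ n) (B := fun n => q ^ 2 ∣ n), nn_mul hdis hSD (Su_Ll_Mo hq1 a),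
        nn_mul hdis hSF (Su_Rl_Mo hq1 M a), nn_Ll δ hq1]
      · refine hSD.mul (Su_Ll a q) fun m l hm hl hd => ?_
        have hqm : ¬ q ∣ m := fun h => hq (hm.2 q hq1 h)
        rcases hl with rfl | rfl
        · rw [mul_one] at hd
          exact hqm ((dvd_pow_self q two_ne_zero).trans hd)
        · rw [pow_two] at hd
          exact hqm (Nat.dvd_of_mul_dvd_mul_right hq1.pos hd)
      · exact hSF.mul (Su_Rl M a q) fun m l _ hl => hl.mul_left m
      · exact fun n h1 h2 => h1 h2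
    refine (hdom.nn δ).trans ?_
    rw [h1, sum_insert hq, sum_insert hq]
    have h2 := ih hS1
    have h3 := nn_FS hδ hM ha S hS1
    have h4 := nn_Rl hδ ha M q
    set w := wd δ q with hw
    set V := ∑ p ∈ S, wd δ p with hV
    set W := ∑ p ∈ S, wd δ p ^ 2 with hW
    set C := Real.exp (3 * a) with hC
    have hw0 : 0 ≤ w := BLK.wd_nonneg δ q
    have hW0 : 0 ≤ W := Finset.sum_nonneg fun p _ => sq_nonneg _
    have hC0 : 0 < C := Real.exp_pos _
    have e1 : Real.exp (a ^ 2 * (w + V)) = Real.exp (a ^ 2 * w) * Real.exp (a ^ 2 * V) := by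
      rw [← Real.exp_add]; congr 1; ring
    have e2 : Real.exp (C * (w ^ 2 + W)) = Real.exp (C * w ^ 2) * Real.exp (C * W) := by
      rw [← Real.exp_add]; congr 1; ring
    have e3 : Real.exp (a ^ 2 * V + C * W) = Real.exp (a ^ 2 * V) * Real.exp (C * W) := Real.exp_add _ _
    rw [e1, e2]
    rw [e3] at h3
    have g1 : 1 + a ^ 2 * w ≤ Real.exp (a ^ 2 * w) := by
      have := Real.add_one_le_exp (a ^ 2 * w); linarith
    have g2 : 1 + C * w ^ 2 ≤ Real.exp (C * w ^ 2) := by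
      have := Real.add_one_le_exp (C * w ^ 2); linarith
    have g3 : 1 ≤ Real.exp (C * W) := Real.one_le_exp (by positivity)
    have g4 : 1 ≤ Real.exp (a ^ 2 * w) := Real.one_le_exp (by positivity)
    have p1 := Real.exp_pos (a ^ 2 * w)
    have p2 := Real.exp_pos (a ^ 2 * V)
    have p3 := Real.exp_pos (C * w ^ 2)
    have p4 := Real.exp_pos (C * W)
    set E1 := Real.exp (a ^ 2 * w)
    set E2 := Real.exp (a ^ 2 * V)
    set E3 := Real.exp (C * w ^ 2)
    set E4 := Real.exp (C * W)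
    have h5 : nn δ (FS M a S - GS M a S) * (1 + a ^ 2 * w) ≤ (E2 * (E4 - 1)) * E1 :=
      mul_le_mul h2 g1 (by positivity) (mul_nonneg p2.le (by linarith))
    have h6 : nn δ (FS M a S) * nn δ (Rl M a q) ≤ (E2 * E4) * (C * w ^ 2) :=
      mul_le_mul h3 h4 (BLK.nn_nonneg _ _) (by positivity)
    have h7 : (E2 * E4) * (C * w ^ 2) ≤ (E2 * E4) * (E1 * (E3 - 1)) := by
      refine mul_le_mul_of_nonneg_left ?_ (by positivity)
      have h8 : C * w ^ 2 ≤ E3 - 1 := by linarith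
      have h9 : 0 ≤ E3 - 1 := le_trans (by positivity) h8
      nlinarith
    calc _ ≤ (E2 * (E4 - 1)) * E1 + (E2 * E4) * (E1 * (E3 - 1)) := by linarith
      _ = E1 * E2 * (E3 * E4 - 1) := by ring

end Pool.Agent.V5helper61.HM.SQ1
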