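import Pool.Agent.N748.HM.Stm
import Pool.Agent.V5helper61.HM.SQ1c

set_option autoImplicit false

/-!
# HM/SQ1: the factor of the squares, mean square (helper61)
-/

namespace Pool.Agent.V5helper61.HM

open Finset MonoidAlgebra Complex
open Pool.Agent.N748.GC Pool.Agent.N748.HM
open SQ1

lemma be_zero {y : ℝ} (hy : 1 ≤ y) : be y 0 = y := by
  unfold be
  rw [pow_zero, mul_one, Real.exp_log (by linarith)]

/-- the blocks cover the primes between `z` and `y` -/
lemma PP_eq {z : ℕ} (hz : 144 ≤ z) {y : ℝ} (hy : 1 ≤ y) {J : ℕ} (hJ : be y J < 144) :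
    PP z y = (range J).biUnion (IB z y) := by
  classical
  ext p
  rw [mem_biUnion]
  constructor
  · intro hp
    unfold PP at hp
    rw [mem_filter, mem_Icc] at hp
    obtain ⟨⟨h1, h2⟩, h3⟩ := hp
    have h4 : (p:ℝ) ≤ y := (Nat.le_floor_iff (by linarith)).1 h2
    have h5 : be y J < p := by
      have : (144:ℝ) ≤ p := by exact_mod_cast hz.trans h1
      linarith
    have hex : ∃ i, be y i < p := ⟨J, h5⟩
    set i := Nat.find hex with hi
    have hi1 : be y i < p := Nat.find_spec hex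
    have hi2 : i ≤ J := Nat.find_min' hex h5
    have hi0 : i ≠ 0 := by
      intro h0
      rw [h0, be_zero hy] at hi1
      linarith
    have hi3 : (p:ℝ) ≤ be y (i - 1) := by
      have := Nat.find_min hex (m := i - 1) (by omega)
      push Not at this
      exact this
    refine ⟨i - 1, mem_range.2 (by omega), ?_⟩
    unfold IB
    rw [mem_filter, mem_filter, mem_Icc]
    have hi4 : i - 1 + 1 = i := by omega
    rw [hi4]
    exact ⟨⟨⟨h3.one_lt.le, (Nat.le_floor_iff (Real.exp_pos _).le).2 hi3⟩, h3, hz.trans h1, hi1⟩, h1⟩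
  · rintro ⟨i, _, hp⟩
    unfold PP
    rw [mem_filter, mem_Icc]
    refine ⟨⟨NNL.IB_z hp, ?_⟩, NNL.IB_prime hp⟩
    rw [Nat.le_floor_iff (by linarith)]
    have h1 := NNL.IB_le hp
    have h2 := NNL.be_anti hy (Nat.zero_le i)
    rw [be_zero hy] at h2
    linarith

theorem t_SQ1 : S_SQ1 := by
  classical
  intro α hα c _ e he
  set C := Real.exp (3 * α) with hC
  have hC0 : 0 < C := Real.exp_pos _
  have hl : 0 < Real.log (1 + e) := Real.log_pos (by linarith)
  obtain ⟨z1, hz1⟩ := exists_nat_ge (2 * C / Real.log (1 + e))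
  refine ⟨max z1 144, 0, ?_⟩
  intro z J Rs Kq y hz _ hy hJ _ δ hδ
  have hz144 : 144 ≤ z := (le_max_right _ _).trans hz
  have hzz : z1 ≤ z := (le_max_left _ _).trans hz
  set U := (range J).biUnion (IB z y) with hU
  have hUp : ∀ p ∈ U, p.Prime := fun p hp => by
    obtain ⟨i, _, hi⟩ := mem_biUnion.1 hp
    exact NNL.IB_prime hi
  have hdisj : Set.PairwiseDisjoint (↑(range J)) (IB z y) := by
    intro i _ j _ hij
    exact NNL.IB_disj' z hy hij
  set M := 20 * RB Rs J + Kq + 1 with hM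
  have hM1 : 1 ≤ M := by omega
  have hRB : ∀ i ∈ Ico 0 J, 20 * RB Rs i ≤ M := by
    intro i hi
    rw [mem_Ico] at hi
    have : RB Rs i ≤ RB Rs J := by
      unfold RB
      omega
    omega
  have hB : Lq (BP (fun _ => α) z y 0 J Rs) (GS M α U) := by
    have e1 : GS M α U = ∏ i ∈ Ico 0 J, ∏ p ∈ IB z y i, NKc M α (single p 1) := by
      unfold GS
      rw [hU, Finset.prod_biUnion hdisj, ← Finset.range_eq_Ico]
      rfl
    rw [e1]
    unfold BP
    exact Lq.prod fun i hi => NKc_blk hα.le (IB z y i) (hRB i hi)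
  have hP : ∀ p ∈ U, Ps (single (p ^ 2) (1 / 2 : ℂ) : PC) := fun p _ => Ps.single half_nonneg
  have hQ : Lq (GQ α z y Kq) (∏ p ∈ U, Ql M α p) := by
    unfold GQ
    rw [PP_eq hz144 hy hJ]
    refine (NKc_le hα.le (Ps.sum hP) (by omega : Kq ≤ M)).trans ?_
    exact NKc_sum hα.le U (fun p => single (p ^ 2) (1 / 2 : ℂ)) hP M
  have hQ1 : Ps (GQ α z y Kq - 1) := by
    unfold GQ
    rw [PP_eq hz144 hy hJ]
    have h1 := NKc_le hα.le (x := ∑ p ∈ U, (single (p ^ 2) (1 / 2 : ℂ) : PC)) (Ps.sum hP) (Nat.zero_le Kq)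
    have e1 : NKc 0 α (∑ p ∈ U, (single (p ^ 2) (1 / 2 : ℂ) : PC)) = 1 := by
      unfold NKc
      simp [one_def]
    rw [e1] at h1
    exact h1.2
  have hQ2 : Lq (GQ α z y Kq - 1) (∏ p ∈ U, Ql M α p - 1) := by
    refine ⟨hQ1, ?_⟩
    have e1 : ∏ p ∈ U, Ql M α p - 1 - (GQ α z y Kq - 1) = ∏ p ∈ U, Ql M α p - GQ α z y Kq := by ring
    rw [e1]
    exact hQ.2
  have hD := (hB.mul hQ2).nn δ
  have e2 : GS M α U * (∏ p ∈ U, Ql M α p - 1) = FS M α U - GS M α U := by
    have e3 : FS M α U = GS M α U * ∏ p ∈ U, Ql M α p := by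
      unfold FS GS Fl
      rw [Finset.prod_mul_distrib]
    rw [e3]
    ring
  rw [e2] at hD
  refine hD.trans ((key hδ hM1 hα.le U hUp).trans ?_)
  have hV : ∑ p ∈ U, wd δ p = VB δ z y 0 J := by
    unfold VB
    rw [hU, Finset.sum_biUnion hdisj, ← Finset.range_eq_Ico]
  have hW : ∑ p ∈ U, wd δ p ^ 2 ≤ 2 / (z:ℝ) := by
    refine le_trans ?_ (NNL.sum_sq_le z (by omega) hy J)
    rw [← Finset.sum_biUnion hdisj]
    refine Finset.sum_le_sum fun p hp => ?_
    calc wd δ p ^ 2 ≤ (1 / (p:ℝ)) ^ 2 := pow_le_pow_left₀ (BLK.wd_nonneg δ p) (NNL.wd_le δ hδ (hUp p hp)) 2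
      _ = _ := by rw [div_pow, one_pow]
  rw [hV, mul_comm e]
  refine mul_le_mul_of_nonneg_left ?_ (Real.exp_pos _).le
  have hz0 : (0:ℝ) < z := by
    have : 0 < z := by omega
    exact_mod_cast this
  have h1 : C * (∑ p ∈ U, wd δ p ^ 2) ≤ Real.log (1 + e) := by
    have h2 : 2 * C / Real.log (1 + e) ≤ z := hz1.trans (by exact_mod_cast hzz)
    rw [div_le_iff₀ hl] at h2
    calc C * (∑ p ∈ U, wd δ p ^ 2) ≤ C * (2 / (z:ℝ)) := mul_le_mul_of_nonneg_left hW hC0.le
      _ = 2 * C / z := by ring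
      _ ≤ Real.log (1 + e) := by
        rw [div_le_iff₀ hz0]
        linarith
  have h3 : Real.exp (C * (∑ p ∈ U, wd δ p ^ 2)) ≤ 1 + e := by
    calc _ ≤ Real.exp (Real.log (1 + e)) := Real.exp_le_exp.2 h1
      _ = 1 + e := Real.exp_log (by linarith)
  linarith

end Pool.Agent.V5helper61.HM
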