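import Pool.Agent.N748.GC.NNL

set_option autoImplicit false

/-!
# HM/SQ1: the factor of the squares (helper61), auxiliary part
-/

namespace Pool.Agent.V5helper61.HM.SQ1

open Finset MonoidAlgebra Complex
open Pool.Agent.N748.GC
open scoped ComplexOrder

/-- nonnegative coefficients -/
def Ps (f : PC) : Prop := ∀ n, 0 ≤ f.coeff n

lemma Ps.add {f g : PC} (hf : Ps f) (hg : Ps g) : Ps (f + g) := by
  intro n
  rw [coeff_add, Finsupp.add_apply]
  exact add_nonneg (hf n) (hg n)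

lemma Ps.zero : Ps 0 := by
  intro n
  rw [coeff_zero, Finsupp.zero_apply]

lemma Ps.sum {ι : Type*} {S : Finset ι} {t : ι → PC} (h : ∀ j ∈ S, Ps (t j)) : Ps (∑ j ∈ S, t j) := by
  intro n
  rw [BLK.coeff_sum_apply]
  exact Finset.sum_nonneg fun j hj => h j hj n

lemma Ps.mul {f g : PC} (hf : Ps f) (hg : Ps g) : Ps (f * g) := by
  intro n
  rw [BLK.coeff_mul' f g (N1 := f.coeff.support) (N2 := g.coeff.support) subset_rfl subset_rfl]
  refine Finset.sum_nonneg fun a _ => Finset.sum_nonneg fun b _ => ?_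
  split_ifs
  · exact mul_nonneg (hf a) (hg b)
  · exact le_rfl

lemma Ps.single {m : ℕ} {c : ℂ} (hc : 0 ≤ c) : Ps (single m c) := by
  intro n
  rw [coeff_single, Finsupp.single_apply]
  split_ifs
  · exact hc
  · exact le_rfl

lemma Ps.one : Ps 1 := by
  rw [one_def]
  exact Ps.single zero_le_one

lemma Ps.pow {f : PC} (hf : Ps f) (k : ℕ) : Ps (f ^ k) := by
  induction k with
  | zero => rw [pow_zero]; exact Ps.one
  | succ k ih => rw [pow_succ]; exact ih.mul hf

lemma Ps.smul {f : PC} (hf : Ps f) {c : ℂ} (hc : 0 ≤ c) : Ps (c • f) := by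
  intro n
  rw [coeff_smul_apply, smul_eq_mul]
  exact mul_nonneg hc (hf n)

/-- domination -/
def Lq (f g : PC) : Prop := Ps f ∧ Ps (g - f)

lemma Lq.ps {f g : PC} (h : Lq f g) : Ps g := by
  have := h.1.add h.2
  rwa [add_sub_cancel] at this

lemma Lq.refl {f : PC} (h : Ps f) : Lq f f := ⟨h, by rw [sub_self]; exact Ps.zero⟩

lemma Lq.trans {f g k : PC} (h1 : Lq f g) (h2 : Lq g k) : Lq f k := by
  refine ⟨h1.1, ?_⟩
  have := h1.2.add h2.2
  have e : g - f + (k - g) = k - f := by ring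
  rwa [e] at this

lemma Lq.mul {f₁ f₂ g₁ g₂ : PC} (h₁ : Lq f₁ g₁) (h₂ : Lq f₂ g₂) : Lq (f₁ * f₂) (g₁ * g₂) := by
  refine ⟨h₁.1.mul h₂.1, ?_⟩
  have e : g₁ * g₂ - f₁ * f₂ = (g₁ - f₁) * g₂ + f₁ * (g₂ - f₂) := by ring
  rw [e]
  exact (h₁.2.mul h₂.ps).add (h₁.1.mul h₂.2)

lemma Lq.prod {ι : Type*} {S : Finset ι} {f g : ι → PC} (h : ∀ j ∈ S, Lq (f j) (g j)) :
    Lq (∏ j ∈ S, f j) (∏ j ∈ S, g j) := by
  classical
  induction S using Finset.induction_on with
  | empty => rw [prod_empty, prod_empty]; exact Lq.refl Ps.one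
  | insert q S hq ih =>
    rw [prod_insert hq, prod_insert hq]
    exact (h q (mem_insert_self _ _)).mul (ih fun j hj => h j (mem_insert_of_mem hj))

lemma Lq.nn {f g : PC} (h : Lq f g) (δ : ℝ) : nn δ f ≤ nn δ g := by
  refine NN.nn_mono δ fun n => ?_
  have h1 := h.1 n
  have h2 : f.coeff n ≤ g.coeff n := by
    have := h.2 n
    rw [coeff_sub, Finsupp.sub_apply] at this
    exact sub_nonneg.1 this
  obtain ⟨h3, h4⟩ := Complex.nonneg_iff.1 h1
  obtain ⟨h5, h6⟩ := Complex.le_def.1 h2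
  have e1 : f.coeff n = (((f.coeff n).re : ℝ) : ℂ) := Complex.ext rfl (by simpa using h4.symm)
  have e2 : g.coeff n = (((g.coeff n).re : ℝ) : ℂ) := Complex.ext rfl (by rw [← h6, ← h4]; simp)
  rw [e1, e2, Complex.norm_real, Complex.norm_real, Real.norm_of_nonneg h3,
    Real.norm_of_nonneg (h3.trans h5)]
  exact h5

lemma cf_nonneg {a : ℝ} (ha : 0 ≤ a) (k : ℕ) : (0:ℂ) ≤ ((a ^ k / (k.factorial : ℝ) : ℝ) : ℂ) := by
  rw [Complex.zero_le_real]
  positivity

lemma NKc_ps {a : ℝ} (ha : 0 ≤ a) {x : PC} (hx : Ps x) (K : ℕ) : Ps (NKc K a x) := by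
  unfold NKc
  exact Ps.sum fun k _ => (hx.pow k).smul (cf_nonneg ha k)

lemma NKc_le {a : ℝ} (ha : 0 ≤ a) {x : PC} (hx : Ps x) {K M : ℕ} (h : K ≤ M) : Lq (NKc K a x) (NKc M a x) := by
  classical
  refine ⟨NKc_ps ha hx K, ?_⟩
  unfold NKc
  rw [← Finset.sum_sdiff (Finset.range_subset_range.2 (Nat.succ_le_succ h)), add_sub_cancel_right]
  exact Ps.sum fun k _ => (hx.pow k).smul (cf_nonneg ha k)

lemma NKc_add {a : ℝ} (ha : 0 ≤ a) {x y : PC} (hx : Ps x) (hy : Ps y) (K : ℕ) :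
    Lq (NKc K a (x + y)) (NKc K a x * NKc K a y) := by
  classical
  refine ⟨NKc_ps ha (hx.add hy) K, ?_⟩
  set t : ℕ × ℕ → PC := fun m => ((a ^ m.1 / (m.1.factorial : ℝ) * (a ^ m.2 / (m.2.factorial : ℝ)) : ℝ) : ℂ) •
        (x ^ m.1 * y ^ m.2) with ht
  have ht0 : ∀ m, Ps (t m) := fun m => by
    rw [ht]
    refine ((hx.pow m.1).mul (hy.pow m.2)).smul ?_
    rw [Complex.zero_le_real]
    positivity
  have e1 : NKc K a (x + y) = ∑ m ∈ (range (K + 1)).biUnion (fun k => antidiagonal k), t m := by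
    rw [Finset.sum_biUnion]
    · unfold NKc
      refine Finset.sum_congr rfl fun k _ => ?_
      have := BLK.pow_PC k a a x y
      rw [ht, this, ← smul_add, smul_pow, smul_smul]
      congr 1
      push_cast
      ring
    · intro i _ j _ hij
      rw [Function.onFun, Finset.disjoint_left]
      intro m hm hm'
      rw [HasAntidiagonal.mem_antidiagonal] at hm hm'
      exact hij (hm.symm.trans hm')
  have e2 : NKc K a x * NKc K a y = ∑ m ∈ range (K + 1) ×ˢ range (K + 1), t m := by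
    unfold NKc
    rw [Finset.sum_mul_sum, Finset.sum_product]
    refine Finset.sum_congr rfl fun i _ => Finset.sum_congr rfl fun j _ => ?_
    rw [smul_mul_smul_comm, ht]
    congr 1
    push_cast
    ring
  have hsub : (range (K + 1)).biUnion (fun k => antidiagonal k) ⊆ range (K + 1) ×ˢ range (K + 1) := by
    intro m hm
    rw [mem_biUnion] at hm
    obtain ⟨k, hk, hm⟩ := hm
    rw [HasAntidiagonal.mem_antidiagonal] at hm
    rw [mem_range] at hk
    rw [mem_product, mem_range, mem_range]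
    constructor <;> omega
  rw [e1, e2, ← Finset.sum_sdiff hsub, add_sub_cancel_right]
  exact Ps.sum fun m _ => ht0 m

lemma NKc_sum {a : ℝ} (ha : 0 ≤ a) (S : Finset ℕ) (u : ℕ → PC) (hu : ∀ p ∈ S, Ps (u p)) (K : ℕ) :
    Lq (NKc K a (∑ p ∈ S, u p)) (∏ p ∈ S, NKc K a (u p)) := by
  classical
  induction S using Finset.induction_on with
  | empty =>
    rw [sum_empty, prod_empty]
    have : NKc K a 0 = 1 := by
      unfold NKc
      rw [Finset.sum_range_succ', Finset.sum_eq_zero]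
      · simp
      · intro k _
        rw [zero_pow (Nat.succ_ne_zero k), smul_zero]
    rw [this]
    exact Lq.refl Ps.one
  | insert q S hq ih =>
    rw [sum_insert hq, prod_insert hq]
    have h1 := hu q (mem_insert_self _ _)
    have h2 : ∀ p ∈ S, Ps (u p) := fun p hp => hu p (mem_insert_of_mem hp)
    exact (NKc_add ha h1 (Ps.sum h2) K).trans ((Lq.refl (NKc_ps ha h1 K)).mul (ih h2))

/-- domination of a product over blocks -/
lemma NKc_blk {a : ℝ} (ha : 0 ≤ a) (I : Finset ℕ) {K M : ℕ} (h : K ≤ M) :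
    Lq (NKc K a (xc I)) (∏ p ∈ I, NKc M a (single p 1)) := by
  have h1 : ∀ p ∈ I, Ps (single p (1:ℂ) : PC) := fun p _ => Ps.single zero_le_one
  refine (NKc_le ha (Ps.sum h1) h).trans ?_
  exact NKc_sum ha I (fun p => single p 1) h1 M

end Pool.Agent.V5helper61.HM.SQ1
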