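import Pool.Agent.V5helper61.HM.SQ1a

set_option autoImplicit false

/-!
# HM/SQ1: the factor of the squares (helper61), local factors and the recursion
-/

namespace Pool.Agent.V5helper61.HM.SQ1

open Finset MonoidAlgebra Complex
open Pool.Agent.N748.GC
open scoped ComplexOrder

/-- the local factors -/
noncomputable def Gl (M : ℕ) (a : ℝ) (p : ℕ) : PC := NKc M a (single p 1)

noncomputable def Ql (M : ℕ) (a : ℝ) (p : ℕ) : PC := NKc M a (single (p ^ 2) (1 / 2 : ℂ))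

noncomputable def Fl (M : ℕ) (a : ℝ) (p : ℕ) : PC := Gl M a p * Ql M a p

/-- the linear part -/
noncomputable def Ll (a : ℝ) (p : ℕ) : PC := single 1 1 + single p (a:ℂ)

lemma half_nonneg : (0:ℂ) ≤ 1 / 2 := by
  have : (1 / 2 : ℂ) = ((1 / 2 : ℝ) : ℂ) := by norm_num
  rw [this, Complex.zero_le_real]
  norm_num

lemma Gl_ps {a : ℝ} (ha : 0 ≤ a) (M p : ℕ) : Ps (Gl M a p) := NKc_ps ha (Ps.single zero_le_one) M

lemma Ql_ps {a : ℝ} (ha : 0 ≤ a) (M p : ℕ) : Ps (Ql M a p) := NKc_ps ha (Ps.single half_nonneg) M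

lemma Fl_ps {a : ℝ} (ha : 0 ≤ a) (M p : ℕ) : Ps (Fl M a p) := (Gl_ps ha M p).mul (Ql_ps ha M p)

lemma Ql_ge_one {a : ℝ} (ha : 0 ≤ a) (M p : ℕ) : Lq 1 (Ql M a p) := by
  have := NKc_le ha (x := single (p ^ 2) (1 / 2 : ℂ)) (Ps.single half_nonneg) (Nat.zero_le M)
  have e : NKc 0 a (single (p ^ 2) (1 / 2 : ℂ)) = 1 := by
    unfold NKc
    simp [one_def]
  rwa [e] at this

/-- the coefficients of the local factor -/
noncomputable def cl (a : ℝ) (m : ℕ × ℕ) : ℝ := a ^ m.1 / (m.1.factorial : ℝ) * ((a / 2) ^ m.2 / (m.2.factorial : ℝ))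

lemma cl_nonneg {a : ℝ} (ha : 0 ≤ a) (m : ℕ × ℕ) : 0 ≤ cl a m := by
  unfold cl
  positivity

lemma Fl_eq (M : ℕ) (a : ℝ) (p : ℕ) :
    Fl M a p = ∑ m ∈ range (M + 1) ×ˢ range (M + 1), single (p ^ (m.1 + 2 * m.2)) (cl a m : ℂ) := by
  unfold Fl Gl Ql NKc
  rw [Finset.sum_mul_sum, Finset.sum_product]
  refine Finset.sum_congr rfl fun i _ => Finset.sum_congr rfl fun j _ => ?_
  rw [single_pow, single_pow, smul_single, smul_single, single_mul_single, ← pow_mul, ← pow_add]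
  unfold cl
  congr 1
  simp only [smul_eq_mul]
  push_cast
  rw [div_pow, div_pow, one_pow, one_pow]
  ring

/-- the part of degree at least two of the local factor -/
noncomputable def Rl (M : ℕ) (a : ℝ) (p : ℕ) : PC :=
  ∑ m ∈ ((range (M + 1) ×ˢ range (M + 1)).erase (0, 0)).erase (1, 0),
    single (p ^ (m.1 + 2 * m.2)) (cl a m : ℂ)

lemma Rl_ps {a : ℝ} (ha : 0 ≤ a) (M p : ℕ) : Ps (Rl M a p) :=
  Ps.sum fun m _ => Ps.single (by rw [Complex.zero_le_real]; exact cl_nonneg ha m)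

lemma Fl_split {M : ℕ} (hM : 1 ≤ M) (a : ℝ) (p : ℕ) : Fl M a p = Ll a p + Rl M a p := by
  classical
  rw [Fl_eq]
  unfold Rl Ll
  have h0 : ((0, 0) : ℕ × ℕ) ∈ range (M + 1) ×ˢ range (M + 1) := by
    rw [mem_product]
    exact ⟨by simp, by simp⟩
  have h1 : ((1, 0) : ℕ × ℕ) ∈ (range (M + 1) ×ˢ range (M + 1)).erase (0, 0) := by
    rw [mem_erase, mem_product]
    exact ⟨by decide, by rw [mem_range]; omega, by simp⟩
  rw [← Finset.add_sum_erase _ _ h0, ← Finset.add_sum_erase _ _ h1, ← add_assoc]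
  congr 2
  · unfold cl
    simp
  · unfold cl
    simp

lemma Gl_split {M : ℕ} (hM : 1 ≤ M) {a : ℝ} (ha : 0 ≤ a) (p : ℕ) : Ps (Gl M a p - Ll a p) := by
  have h := NKc_le ha (x := (single p (1:ℂ) : PC)) (Ps.single zero_le_one) hM
  have e : NKc 1 a (single p (1:ℂ)) = Ll a p := by
    unfold NKc Ll
    rw [Finset.sum_range_succ, Finset.sum_range_one]
    congr 1
    · simp [one_def]
    · rw [pow_one, pow_one, smul_single]
      simp
  rw [← e]
  exact h.2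

lemma Ll_ps {a : ℝ} (ha : 0 ≤ a) (p : ℕ) : Ps (Ll a p) :=
  (Ps.single zero_le_one).add (Ps.single (by rw [Complex.zero_le_real]; exact ha))

lemma wd_le_one {δ : ℝ} (hδ : 0 ≤ δ) (n : ℕ) : wd δ n ≤ 1 := by
  unfold wd
  rcases Nat.eq_zero_or_pos n with rfl | hn
  · simp
  · have h1 : (1:ℝ) ≤ n := by exact_mod_cast hn
    have h2 : (n:ℝ) ^ (-(2 * δ)) ≤ 1 := Real.rpow_le_one_of_one_le_of_nonpos h1 (by linarith)
    have h3 : 1 / (n:ℝ) ≤ 1 := by
      rw [div_le_one (by linarith)]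
      exact h1
    have h4 : 0 ≤ 1 / (n:ℝ) := by positivity
    calc (n:ℝ) ^ (-(2 * δ)) * (1 / (n:ℝ)) ≤ 1 * 1 := mul_le_mul h2 h3 h4 zero_le_one
      _ = 1 := one_mul 1

lemma wd_pow_le {δ : ℝ} (hδ : 0 ≤ δ) (p : ℕ) {k : ℕ} (hk : 2 ≤ k) : wd δ (p ^ k) ≤ wd δ p ^ 2 := by
  rw [BLK.wd_pow]
  exact pow_le_pow_of_le_one (BLK.wd_nonneg δ p) (wd_le_one hδ p) hk

lemma cl_sum {a : ℝ} (ha : 0 ≤ a) (M : ℕ) :
    ∑ m ∈ ((range (M + 1) ×ˢ range (M + 1)).erase (0, 0)).erase (1, 0), cl a m ≤ Real.exp (3 * a / 2) := by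
  classical
  have h1 : ∑ m ∈ ((range (M + 1) ×ˢ range (M + 1)).erase (0, 0)).erase (1, 0), cl a m ≤
      ∑ m ∈ range (M + 1) ×ˢ range (M + 1), cl a m := by
    refine Finset.sum_le_sum_of_subset_of_nonneg ?_ fun m _ _ => cl_nonneg ha m
    exact (Finset.erase_subset _ _).trans (Finset.erase_subset _ _)
  have h2 : ∑ m ∈ range (M + 1) ×ˢ range (M + 1), cl a m =
      (∑ i ∈ range (M + 1), a ^ i / (i.factorial : ℝ)) * (∑ i ∈ range (M + 1), (a / 2) ^ i / (i.factorial : ℝ)) := by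
    rw [Finset.sum_mul_sum, Finset.sum_product]
    rfl
  rw [h2] at h1
  refine h1.trans ?_
  have h3 := Real.sum_le_exp_of_nonneg ha (M + 1)
  have h4 := Real.sum_le_exp_of_nonneg (x := a / 2) (by positivity) (M + 1)
  have h5 : 3 * a / 2 = a + a / 2 := by ring
  rw [h5, Real.exp_add]
  exact mul_le_mul h3 h4 (Finset.sum_nonneg fun i _ => by positivity) (Real.exp_pos _).le

/-- the norm of the remainder -/
lemma nn_Rl {δ : ℝ} (hδ : 0 ≤ δ) {a : ℝ} (ha : 0 ≤ a) (M p : ℕ) :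
    nn δ (Rl M a p) ≤ Real.exp (3 * a) * wd δ p ^ 2 := by
  classical
  have h1 := NN.sqrt_nn_sum δ (((range (M + 1) ×ˢ range (M + 1)).erase (0, 0)).erase (1, 0))
    (fun m => (single (p ^ (m.1 + 2 * m.2)) (cl a m : ℂ) : PC))
  have h2 : ∀ m ∈ ((range (M + 1) ×ˢ range (M + 1)).erase (0, 0)).erase (1, 0),
      Real.sqrt (nn δ (single (p ^ (m.1 + 2 * m.2)) (cl a m : ℂ) : PC)) ≤ cl a m * wd δ p := by
    intro m hm
    have hm2 : 2 ≤ m.1 + 2 * m.2 := by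
      rw [mem_erase, mem_erase] at hm
      obtain ⟨h1, h2, _⟩ := hm
      have h3 : ¬ (m.1 = 1 ∧ m.2 = 0) := fun h => h1 (Prod.ext h.1 h.2)
      have h4 : ¬ (m.1 = 0 ∧ m.2 = 0) := fun h => h2 (Prod.ext h.1 h.2)
      omega
    have h0 : 0 ≤ cl a m * wd δ p := mul_nonneg (cl_nonneg ha m) (BLK.wd_nonneg δ p)
    refine Real.sqrt_le_iff.2 ⟨h0, ?_⟩
    rw [NN.nn_single, Complex.norm_real, Real.norm_of_nonneg (cl_nonneg ha m), mul_pow]
    exact mul_le_mul_of_nonneg_left (wd_pow_le hδ p hm2) (sq_nonneg _)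
  have h3 : Real.sqrt (nn δ (Rl M a p)) ≤ Real.exp (3 * a / 2) * wd δ p := by
    refine h1.trans ((Finset.sum_le_sum h2).trans ?_)
    rw [← Finset.sum_mul]
    exact mul_le_mul_of_nonneg_right (cl_sum ha M) (BLK.wd_nonneg δ p)
  have h4 := Real.sq_sqrt (BLK.nn_nonneg δ (Rl M a p))
  have h5 : Real.exp (3 * a) = Real.exp (3 * a / 2) ^ 2 := by
    rw [← Real.exp_nat_mul]
    congr 1
    push_cast
    ring
  rw [← h4, h5, ← mul_pow]
  exact pow_le_pow_left₀ (Real.sqrt_nonneg _) h3 2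

end Pool.Agent.V5helper61.HM.SQ1
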